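import Pool.Agent.H53.VR.CM

/-!
# Module MM: accepted sizes in terms of configurations
-/

set_option autoImplicit false

namespace Pool.Agent.H74.VR

open Classical Pool.Agent.H8.VR

theorem gen_nonempty {N Q L T O A : Type} (S : Sg N Q L T O) (lam : A → L) (th : A → A → T)
    (s : N) (X : Set A) (c : A → Q) (h : S.Gen lam th s X c) : X.Nonempty := by
  induction h with
  | pt s a c h => exact ⟨a, rfl⟩
  | op o X Y c c₁ c₂ h₁ h₂ hd hg ha hX hY ih₁ ih₂ => exact ih₁.mono Set.subset_union_left

theorem num_ne_zero {A : Type} [Fintype A] {P : A → Prop} (a : A) (h : P a) : num P ≠ 0 := by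
  unfold num
  exact Finset.card_ne_zero.2 ⟨a, by simpa using h⟩

theorem pf_MM (hGM : T_GM) (hCM : T_CM) (hTT : T_TT) : T_MM := by
  intro N Q L T O C _ _ _ _ S K s₀ Ok n
  obtain ⟨htot, -⟩ := hTT N Q L T O C S K
  constructor
  · rintro ⟨lam, th, c, hs, hg, hok⟩
    refine ⟨cf K lam th Set.univ Set.univ c, ⟨Fin n, inferInstance, lam, th, Set.univ, c, hs, hg, rfl⟩,
      ?_, ?_⟩
    · rw [htot]
      simp
    · intro σ hσ
      obtain ⟨a, ha, he⟩ := num_pos hσ
      rw [← he]
      exact hok a
  · rintro ⟨c0, ⟨A, _, lam1, th1, X, col1, hs, hg, rfl⟩, hn, hok⟩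
    rw [htot] at hn
    have hne : X.Nonempty := gen_nonempty S lam1 th1 s₀ X col1 hg
    obtain ⟨x0, hx0⟩ := hne
    have hcard : Fintype.card X = n := by
      rw [← hn, Set.ncard_eq_toFinset_card', Set.toFinset_card]
    let e : X ≃ Fin n := Fintype.equivFinOfCardEq hcard
    let f : A → Fin n := fun a => if h : a ∈ X then e ⟨a, h⟩ else e ⟨x0, hx0⟩
    have hfX : ∀ (a : A) (h : a ∈ X), f a = e ⟨a, h⟩ := fun a h => dif_pos h
    have hinj : Set.InjOn f X := by
      intro a ha b hb hab
      rw [hfX a ha, hfX b hb] at hab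
      have := e.injective hab
      exact congrArg Subtype.val this
    have himg : f '' X = Set.univ := by
      refine Set.eq_univ_of_forall fun i => ?_
      refine ⟨(e.symm i : A), (e.symm i).2, ?_⟩
      rw [hfX _ (e.symm i).2]
      simp
    have hsy : ∀ (a : A) (h : a ∈ X), ((e.symm (f a) : X) : A) = a := by
      intro a h
      rw [hfX a h]
      simp
    have h1 := hGM N Q L T O A (Fin n) S lam1 th1 s₀ X col1 hg f hinj
      (fun i => lam1 (e.symm i)) (fun i j => th1 (e.symm i) (e.symm j)) (fun i => col1 (e.symm i))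
      (fun a ha => by simp only [hsy a ha])
      (fun a ha b hb _ => by simp only [hsy a ha, hsy b hb])
      (fun a ha => by simp only [hsy a ha])
    have h2 := hCM Q L T C A (Fin n) K lam1 th1 X X col1 f hinj (le_refl X)
      (fun i => lam1 (e.symm i)) (fun i j => th1 (e.symm i) (e.symm j)) (fun i => col1 (e.symm i))
      (fun a ha => by simp only [hsy a ha])
      (fun a ha b hb _ => by simp only [hsy a ha, hsy b hb])
      (fun a ha => by simp only [hsy a ha])
    rw [himg] at h1 h2
    refine ⟨_, _, _, ?_, h1, ?_⟩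
    · intro a b hab
      refine hs _ _ fun h => hab ?_
      exact e.symm.injective (Subtype.ext h)
    · intro a
      refine hok ((fun i => col1 (e.symm i)) a, stt K (fun i => lam1 (e.symm i))
        (fun i j => th1 (e.symm i) (e.symm j)) Set.univ a) ?_
      rw [← h2]
      exact num_ne_zero a ⟨Set.mem_univ a, rfl⟩

end Pool.Agent.H74.VR
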